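import Pool.Agent.H721.Main

set_option autoImplicit false

/-!
Negative answer to Q1 of MP_57bda5_lc: functional completeness on every group is undecidable for
finite lists of group words.

A word is a string of letters `(i, true)` (the variable `x_i`) and `(i, false)` (its formal
inverse). `Expressible G Bs A` is the smallest set of words containing the variables and the words
of the list `Bs`, closed under substitution of produced words for the variables of a produced word
and under replacement by a word identically equal on `G`.
-/

namespace Pool.Agent.Results.MP_57bda5_lc.Undecidable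

universe u

/-- A word: a string of letters; `(i, true)` is `x_i` and `(i, false)` is its inverse. -/
abbrev Word := List (ℕ × Bool)

/-- The formal inverse of a word. -/
def wordInv (w : Word) : Word := (w.map fun p => (p.1, !p.2)).reverse

/-- Substitution of the words `σ i` for the variables `x_i` in the word `w`. -/
def wordSubst (σ : ℕ → Word) (w : Word) : Word :=
  w.flatMap fun p => if p.2 then σ p.1 else wordInv (σ p.1)

/-- The value of a word in a group when `x_i` takes the value `f i`. -/
def wordEval {G : Type u} [Group G] (f : ℕ → G) (w : Word) : G :=
  (w.map fun p => if p.2 then f p.1 else (f p.1)⁻¹).prod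

/-- Two words are identically equal on `G` if they define the same function on `G`. -/
def IdenticallyEqual (G : Type u) [Group G] (v w : Word) : Prop :=
  ∀ f : ℕ → G, wordEval f v = wordEval f w

/-- The words expressible in the list `Bs` on `G`. -/
inductive Expressible (G : Type u) [Group G] (Bs : List Word) : Word → Prop
  | var (i : ℕ) : Expressible G Bs [(i, true)]
  | base (B : Word) (h : B ∈ Bs) : Expressible G Bs B
  | subst (W : Word) (σ : ℕ → Word) (hW : Expressible G Bs W)
      (hσ : ∀ i, Expressible G Bs (σ i)) : Expressible G Bs (wordSubst σ W)
  | congr (W W' : Word) (hW : Expressible G Bs W) (h : IdenticallyEqual G W W') :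
      Expressible G Bs W'

/-- The list `Bs` is functionally complete on `G`. -/
def FunctionallyComplete (G : Type u) [Group G] (Bs : List Word) : Prop :=
  ∀ A : Word, Expressible G Bs A

section aux

theorem eval_eq {G : Type u} [Group G] (f : ℕ → G) (w : Word) :
    wordEval f w = FreeGroup.lift f (FreeGroup.mk w) := by
  unfold wordEval
  rw [FreeGroup.lift_mk]
  congr 1
  apply List.map_congr_left
  intro p _
  cases p.2 <;> rfl

theorem mk_subst (σ : ℕ → Word) (w : Word) :
    FreeGroup.mk (wordSubst σ w) =
      FreeGroup.lift (fun i => FreeGroup.mk (σ i)) (FreeGroup.mk w) := by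
  induction w with
  | nil => rfl
  | cons p w ih =>
    have e1 : wordSubst σ (p :: w) =
        (if p.2 then σ p.1 else wordInv (σ p.1)) ++ wordSubst σ w := rfl
    have e2 : (FreeGroup.mk (p :: w) : FreeGroup ℕ) =
        FreeGroup.mk [p] * FreeGroup.mk w := rfl
    rw [e1, e2, map_mul, ← ih, ← FreeGroup.mul_mk]
    congr 1
    rcases p with ⟨i, b⟩
    cases b
    · simp only [Bool.false_eq_true, if_false]
      have e3 : (FreeGroup.mk [(i, false)] : FreeGroup ℕ) = (FreeGroup.of i)⁻¹ := rfl
      rw [e3, map_inv, FreeGroup.lift_apply_of]
      rfl
    · simp only [if_true]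
      have e3 : (FreeGroup.mk [(i, true)] : FreeGroup ℕ) = FreeGroup.of i := rfl
      rw [e3, FreeGroup.lift_apply_of]

end aux

/-- There is no algorithm that decides, given a finite list of words, whether the list is
functionally complete on every group. -/
theorem result : ¬ ComputablePred (fun Bs : List Word =>
    ∀ (G : Type u) [Group G], FunctionallyComplete G Bs) := by
  intro hP
  have hP1 : ComputablePred (fun B : List (ℕ × Bool) =>
      ∀ (G : Type u) [Group G], FunctionallyComplete G [B]) := by
    obtain ⟨hd, hc⟩ := hP
    refine ⟨fun B => hd [B], ?_⟩
    have h1 : Computable fun B : List (ℕ × Bool) => [B] :=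
      (Primrec.list_cons.comp Primrec.id (Primrec.const [])).to_comp
    exact hc.comp h1
  refine Pool.Agent.H721.Rel.main_insep _ hP1 ?_ ?_
  · intro w hw G _ A
    have key : ∀ g : FreeGroup ℕ, g ∈ {C : FreeGroup ℕ |
        ∀ W : Word, FreeGroup.mk W = C → Expressible G [w] W} := by
      intro g
      have hcongr : ∀ W W' : Word, FreeGroup.mk W = (FreeGroup.mk W' : FreeGroup ℕ) →
          Expressible G [w] W → Expressible G [w] W' := by
        intro W W' e h
        refine Expressible.congr W W' h ?_
        intro f
        rw [eval_eq, eval_eq, e]
      refine hw {C | ∀ W : Word, FreeGroup.mk W = C → Expressible G [w] W} ⟨?_, ?_⟩ ?_ g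
      · intro i W hW
        exact hcongr _ _ hW.symm (Expressible.var i)
      · intro C hC σ hσ W hW
        have h1 := hC C.toWord FreeGroup.mk_toWord
        have h2 := Expressible.subst C.toWord (fun i => (σ i).toWord) h1
          (fun i => hσ i _ FreeGroup.mk_toWord)
        refine hcongr _ _ ?_ h2
        rw [mk_subst, FreeGroup.mk_toWord, hW]
        congr 2
        funext i
        exact FreeGroup.mk_toWord
      · intro W hW
        exact hcongr _ _ hW.symm (Expressible.base w (by simp))
    exact key (FreeGroup.mk A) A rfl
  · intro w hw s α m0 M hpre
    refine Pool.Agent.H721.Rel.not_pre (α := α) (m0 := m0) (M := M) ?_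
    have h1 := hw (ULift.{u} (Pool.Agent.H721.Rel.GG α m0 M)) [(0, true), (1, false)]
    have key : ∀ W : Word, Expressible (ULift.{u} (Pool.Agent.H721.Rel.GG α m0 M)) [w] W →
        Pool.Agent.H721.Rel.Pre α m0 M (FreeGroup.mk W) := by
      intro W hW
      induction hW with
      | var i =>
        intro f hf
        have := Pool.Agent.H721.Rel.lift_X f i
        unfold Pool.Agent.H721.Rel.X at this
        have e : (FreeGroup.mk [(i, true)] : FreeGroup ℕ) = FreeGroup.of i := rfl
        rw [e, this]
        exact hf i
      | base B hB =>
        rw [List.mem_singleton] at hB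
        rw [hB]; exact hpre
      | subst W σ _ _ ih1 ih2 =>
        intro f hf
        rw [mk_subst]
        have e : FreeGroup.lift f (FreeGroup.lift (fun i => FreeGroup.mk (σ i)) (FreeGroup.mk W)) =
            FreeGroup.lift (fun i => FreeGroup.lift f (FreeGroup.mk (σ i))) (FreeGroup.mk W) := by
          have h : (FreeGroup.lift f).comp (FreeGroup.lift (fun i => FreeGroup.mk (σ i))) =
              FreeGroup.lift (fun i => FreeGroup.lift f (FreeGroup.mk (σ i))) := by
            apply FreeGroup.ext_hom
            intro i
            simp
          exact DFunLike.congr_fun h _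
        rw [e]
        exact ih1 _ (fun i => ih2 i f hf)
      | congr W W' _ h ih =>
        intro f hf
        have h2 := h (fun i => ULift.up (f i))
        rw [eval_eq, eval_eq] at h2
        have h3 : ∀ C : FreeGroup ℕ, (FreeGroup.lift (fun i => ULift.up (f i)) C :
            ULift.{u} (Pool.Agent.H721.Rel.GG α m0 M)).down = FreeGroup.lift f C := by
          intro C
          have h4 : (MulEquiv.ulift.toMonoidHom).comp (FreeGroup.lift (fun i =>
              (ULift.up (f i) : ULift.{u} (Pool.Agent.H721.Rel.GG α m0 M)))) =
              FreeGroup.lift f := by
            apply FreeGroup.ext_hom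
            intro i
            simp
            rfl
          exact DFunLike.congr_fun h4 C
        rw [← h3, ← h2, h3]
        exact ih f hf
    exact key _ h1

end Pool.Agent.Results.MP_57bda5_lc.Undecidable
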